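import Pool.Agent.H322R2.WNum

/-!
For every `d ≥ 4`, the number of plane curves of degree `≤ d` and height `≤ H` having an integer
point is exactly of the order `H^(N-1)`, `N = (d+1)(d+2)/2`.
-/

namespace Pool.Agent.Results.MP_821da1_nt.ExactOrderAllDegrees

open Pool.Agent.H322R2

/-- **For every `d ≥ 4`, a plane curve of degree `≤ d` and height `≤ H` has an integer point with
probability exactly of the order `1 / H`.** Let `N = (d+1)(d+2)/2`. There are exactly `(2H+1)^N`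
polynomials `F ∈ ℤ[x, y]` of total degree at most `d` with coefficients at most `H` in absolute
value. The number of those having an integer zero (of any size) is at least `(2H+1)^(N-1)` and at
most `10^73 * 2^(d^2+92d) * (d+1)^(d+12) * (2H+1)^(N-1)`. -/
theorem result (d : ℕ) (hd : 4 ≤ d) (H : ℕ) (hH : 1 ≤ H) :
    Set.ncard {F : MvPolynomial (Fin 2) ℤ | F.totalDegree ≤ d ∧ ∀ m, |F.coeff m| ≤ (H : ℤ)}
      = (2 * H + 1) ^ ((d + 1) * (d + 2) / 2) ∧
    (2 * H + 1) ^ ((d + 1) * (d + 2) / 2 - 1) ≤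
      Set.ncard {F : MvPolynomial (Fin 2) ℤ | (F.totalDegree ≤ d ∧ ∀ m, |F.coeff m| ≤ (H : ℤ)) ∧
        ∃ x y : ℤ, MvPolynomial.eval ![x, y] F = 0} ∧
    Set.ncard {F : MvPolynomial (Fin 2) ℤ | (F.totalDegree ≤ d ∧ ∀ m, |F.coeff m| ≤ (H : ℤ)) ∧
        ∃ x y : ℤ, MvPolynomial.eval ![x, y] F = 0}
      ≤ 10 ^ 73 * 2 ^ (d ^ 2 + 92 * d) * (d + 1) ^ (d + 12) *
        (2 * H + 1) ^ ((d + 1) * (d + 2) / 2 - 1) := by
  classical
  have hB : (Bx ↥(Ix d) H).card = (2 * H + 1) ^ ((d + 1) * (d + 2) / 2) := by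
    rw [card_Bx, Fintype.card_coe, card_Ix]
  have hset := setW d H
  rw [hset, Set.ncard_image_of_injective _ FM_injectiveV, Set.ncard_coe_finset]
  refine ⟨?_, ?_, ?_⟩
  · have h1 : {F : MvPolynomial (Fin 2) ℤ | F.totalDegree ≤ d ∧ ∀ m, |F.coeff m| ≤ (H : ℤ)}
        = FM '' (((Bx ↥(Ix d) H) : Finset (↥(Ix d) → ℤ)) : Set (↥(Ix d) → ℤ)) := by
      ext F
      rw [Set.mem_ofPred_eq, FM_memV, Set.mem_image]
      rfl
    rw [h1, Set.ncard_image_of_injective _ FM_injectiveV, Set.ncard_coe_finset, hB]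
  · have h1 := low_countW d H
    rw [card_Ix] at h1
    exact h1
  · have h1 := sharp_vecW hd hH
    rw [card_Ix] at h1
    unfold Cn at h1
    have h2 : (0 : ℝ) ≤ (2 * (H : ℝ) + 1) ^ ((d + 1) * (d + 2) / 2 - 1) := by positivity
    have h3 := h1.trans (mul_le_mul_of_nonneg_right (CW_le d) h2)
    have h4 : (10 ^ 73 * 2 ^ (d ^ 2 + 92 * d) * ((d : ℝ) + 1) ^ (d + 12)) *
        (2 * (H : ℝ) + 1) ^ ((d + 1) * (d + 2) / 2 - 1) =
        ((10 ^ 73 * 2 ^ (d ^ 2 + 92 * d) * (d + 1) ^ (d + 12) *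
        (2 * H + 1) ^ ((d + 1) * (d + 2) / 2 - 1) : ℕ) : ℝ) := by
      push_cast
      ring
    rw [h4, Nat.cast_le] at h3
    convert h3

end Pool.Agent.Results.MP_821da1_nt.ExactOrderAllDegrees
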