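import Pool.Agent.H322R2.AFin3

set_option autoImplicit false

open IntermediateField

namespace Pool.Agent.Results.MP_821da1_nt.ExplicitPureFields

/-- Explicit bounds for the integer points on all plane curves whose real slopes of full degree
lie in `ℚ(P(a)^(1/d))`, `a` large in terms of `P`; in particular on all the curves
`x^d - (a^d + r) y^d = R(x,y)` with `deg R < d`. -/
theorem result :
    (∀ (d : ℕ) (P g : Polynomial ℤ) (a : ℕ) (μ : ℝ) (F : MvPolynomial (Fin 2) ℤ),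
      3 ≤ d → P.Monic → P.natDegree = d → Irreducible g → g ∣ P → ¬ g ^ 2 ∣ P →
      ((2 * d ^ 3) ^ (d + 1) * (1 + ∑ i ∈ P.support, (P.coeff i).natAbs)) ^
        (10 ^ 7 * 36 ^ d * (d + 1) ^ 5) ≤ a →
      0 < μ → μ ^ d = ((P.eval (a : ℤ) : ℤ) : ℝ) →
      F.totalDegree = d →
      Irreducible (MvPolynomial.map (Int.castRingHom ℚ) F) →
      Squarefree (MvPolynomial.map (Int.castRingHom ℚ) (MvPolynomial.homogeneousComponent d F)) →
      (∀ t : ℝ, MvPolynomial.aeval ![1, t] (MvPolynomial.homogeneousComponent d F) = 0 →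
        Module.finrank ℚ ℚ⟮t⟯ = d → t ∈ ℚ⟮μ⟯) →
      ∀ x y : ℤ, MvPolynomial.eval ![x, y] F = 0 →
        x.natAbs ≤ (a * ((d + 1) * ∑ n ∈ F.support, (F.coeff n).natAbs)) ^
          (10 ^ 11 * 36 ^ d * (d + 1) ^ 17) ∧
        y.natAbs ≤ (a * ((d + 1) * ∑ n ∈ F.support, (F.coeff n).natAbs)) ^
          (10 ^ 11 * 36 ^ d * (d + 1) ^ 17)) ∧
    (∀ (d a : ℕ) (r : ℤ) (R : MvPolynomial (Fin 2) ℤ), 3 ≤ d → r ≠ 0 →
      ((2 * d ^ 3) ^ (d + 1) * (1 + (1 + r.natAbs))) ^ (10 ^ 7 * 36 ^ d * (d + 1) ^ 5) ≤ a →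
      R.totalDegree < d →
      ∀ x y : ℤ, x ^ d - ((a : ℤ) ^ d + r) * y ^ d = MvPolynomial.eval ![x, y] R →
        x.natAbs ≤ (a ^ (d + 2) * ((d + 1) * (1 + ∑ n ∈ R.support, (R.coeff n).natAbs))) ^
          (10 ^ 11 * 36 ^ d * (d + 1) ^ 17) ∧
        y.natAbs ≤ (a ^ (d + 2) * ((d + 1) * (1 + ∑ n ∈ R.support, (R.coeff n).natAbs))) ^
          (10 ^ 11 * 36 ^ d * (d + 1) ^ 17)) := by
  refine ⟨?_, ?_⟩
  · intro d P g a μ F hd hm hPd hg hgP hg2 ha hμ0 hμ hFd hirr hsq hS x y hxy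
    exact Pool.Agent.H322R2.main_pure hd hm hPd hg hgP hg2 a ha μ hμ0 hμ F hFd hirr hsq hS x y hxy
  · intro d a r R hd hr ha hR x y hxy
    exact Pool.Agent.H322R2.main_binom hd hr ha R hR x y hxy

end Pool.Agent.Results.MP_821da1_nt.ExplicitPureFields
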