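import Pool.Agent.H322R2.Final2

/-!
Effective Siegel theorem for all but boundedly many members of the families `F + R = 0`,
`deg R ≤ d - 4`, with an explicit polynomial bound.
-/

namespace Pool.Agent.Results.MP_821da1_nt.FewExceptionalFibres

open Polynomial in
/-- Let `F` be an integer polynomial in two variables of total degree `d ≥ 4` whose leading form is
irreducible over `ℚ` and such that no real line meets the curve `F = 0` more than twice at
infinity (that is, no point at infinity is a flex), and let `H` be at least the sum of the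
absolute values of the coefficients of `F`. Then there are at most `10 ^ 9 * 36 ^ d * (d + 1) ^ 7`
triples `(R, x, y)` where `R` is an integer polynomial of total degree at most `d - 4` with sum of
absolute values of the coefficients at most `H` and `(x, y)` is an integer point on the curve
`F + R = 0` with `max |x| |y| > ((d + 1) * H) ^ (10 ^ 10 * 36 ^ d * (d + 1) ^ 11)`. -/
theorem result (d : ℕ) (hd : 4 ≤ d) (F : MvPolynomial (Fin 2) ℤ) (hF : F.totalDegree = d)
    (hirr : Irreducible (MvPolynomial.map (Int.castRingHom ℚ)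
      (MvPolynomial.homogeneousComponent d F)))
    (hflex : ∀ p q : Fin 2 → ℝ, q ≠ 0 → d ≤
      (MvPolynomial.aeval (fun i => (C (p i) + C (q i) * X : ℝ[X])) F).natDegree + 2)
    (H : ℕ) (hH : ∑ m ∈ F.support, (F.coeff m).natAbs ≤ H) :
    Set.encard {t : MvPolynomial (Fin 2) ℤ × ℤ × ℤ | t.1.totalDegree + 4 ≤ d ∧
      ∑ m ∈ t.1.support, (t.1.coeff m).natAbs ≤ H ∧
      MvPolynomial.eval ![t.2.1, t.2.2] (F + t.1) = 0 ∧
      ((d + 1) * H) ^ (10 ^ 10 * 36 ^ d * (d + 1) ^ 11) < max t.2.1.natAbs t.2.2.natAbs}
      ≤ ((10 ^ 9 * 36 ^ d * (d + 1) ^ 7 : ℕ) : ℕ∞) := by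
  subst hF
  exact Pool.Agent.H322R2.main3 F H hd hirr hflex hH

end Pool.Agent.Results.MP_821da1_nt.FewExceptionalFibres
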