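import Pool.Agent.H322R2.CompB

set_option autoImplicit false

open IntermediateField

namespace Pool.Agent.Results.MP_821da1_nt.OneConstantPerField

/-- Polynomial bound for the integer points on all plane curves with simple points at infinity,
with a single constant for each real number field; and computable bounds for every real number
field containing the real slopes at infinity. -/
theorem result :
    (∃ c : IntermediateField ℚ ℝ → ℕ, ∀ F : MvPolynomial (Fin 2) ℤ,
      Irreducible (MvPolynomial.map (Int.castRingHom ℚ) F) → 3 ≤ F.totalDegree →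
      Squarefree (MvPolynomial.map (Int.castRingHom ℚ)
        (MvPolynomial.homogeneousComponent F.totalDegree F)) →
      ∀ x y : ℤ, MvPolynomial.eval ![x, y] F = 0 →
        (x.natAbs ≤ ((F.totalDegree + 1) * ∑ m ∈ F.support, (F.coeff m).natAbs) ^
            (10 ^ 11 * 36 ^ F.totalDegree * (F.totalDegree + 1) ^ 13) ∧
          y.natAbs ≤ ((F.totalDegree + 1) * ∑ m ∈ F.support, (F.coeff m).natAbs) ^
            (10 ^ 11 * 36 ^ F.totalDegree * (F.totalDegree + 1) ^ 13)) ∨
        ∃ t : ℝ, MvPolynomial.aeval ![1, t]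
            (MvPolynomial.homogeneousComponent F.totalDegree F) = 0 ∧
          Module.finrank ℚ ℚ⟮t⟯ = F.totalDegree ∧
          x.natAbs ≤ (c ℚ⟮t⟯ * ((F.totalDegree + 1) * ∑ m ∈ F.support, (F.coeff m).natAbs)) ^
            (10 ^ 11 * 36 ^ F.totalDegree * (F.totalDegree + 1) ^ 13) ∧
          y.natAbs ≤ (c ℚ⟮t⟯ * ((F.totalDegree + 1) * ∑ m ∈ F.support, (F.coeff m).natAbs)) ^
            (10 ^ 11 * 36 ^ F.totalDegree * (F.totalDegree + 1) ^ 13)) ∧
    (∀ K : IntermediateField ℚ ℝ, FiniteDimensional ℚ K →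
      ∃ B : List (ℕ × ℕ × ℤ) → ℕ, Computable B ∧
        ∀ (L : List (ℕ × ℕ × ℤ)) (F : MvPolynomial (Fin 2) ℤ),
          F = (L.map (fun t => MvPolynomial.monomial
            (Finsupp.single 0 t.1 + Finsupp.single 1 t.2.1) t.2.2)).sum →
          Irreducible (MvPolynomial.map (Int.castRingHom ℚ) F) → 3 ≤ F.totalDegree →
          Squarefree (MvPolynomial.map (Int.castRingHom ℚ)
            (MvPolynomial.homogeneousComponent F.totalDegree F)) →
          (∀ t : ℝ, MvPolynomial.aeval ![1, t]
            (MvPolynomial.homogeneousComponent F.totalDegree F) = 0 → t ∈ K) →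
          ∀ x y : ℤ, (L.map (fun t => t.2.2 * x ^ t.1 * y ^ t.2.1)).sum = 0 →
            x.natAbs ≤ B L ∧ y.natAbs ≤ B L) := by
  obtain ⟨c, hc1, hc⟩ := Pool.Agent.H322R2.main1
  refine ⟨⟨c, hc⟩, ?_⟩
  intro K hK
  obtain ⟨B, hB, h⟩ := Pool.Agent.H322R2.main2 c hc1 hc K hK
  refine ⟨B, hB, ?_⟩
  intro L F hF h1 h2 h3 h4 x y hxy
  have hF' : F = Pool.Agent.H322R2.polyL L := hF
  subst hF'
  exact h L h1 h2 h3 h4 x y hxy

end Pool.Agent.Results.MP_821da1_nt.OneConstantPerField
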